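import Pool.Agent.Lib.C909fd.Proof

open CategoryTheory Pool.Agent.Lib.C909fd

namespace Pool.Agent.Results.MP_c909fd_al.CosheavesNotAbelian

/-- There is a topological space `X` such that the category of cosheaves of abelian groups on `X`
is not abelian. -/
theorem result : ∃ X : TopCat.{0}, IsEmpty (Abelian (CosheafCat X)) := by
  let I : Type := (Cardinal.aleph 1).ord.ToType
  have hcard : Cardinal.mk I = Cardinal.aleph 1 := Cardinal.mk_ord_toType _
  have hunc : Uncountable I := by
    rw [← Cardinal.aleph0_lt_mk_iff, hcard]
    exact Cardinal.aleph0_lt_aleph_one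
  have hne : Nonempty I := inferInstance
  have hI : ∀ i : I, (Set.Iio i).Countable := by
    intro i
    rw [← Cardinal.le_aleph0_iff_set_countable, ← Cardinal.lt_aleph_one_iff]
    have h := Cardinal.mk_Iio_lt i (by rw [hcard]; exact (Ordinal.type_toType _).symm)
    exact h.trans_eq hcard
  exact ⟨Sp I, not_abelian hI⟩

end Pool.Agent.Results.MP_c909fd_al.CosheavesNotAbelian
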